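import Pool.Agent.K7.H47.DM.Stm4

/-! Job LEAD (second copy). -/

set_option autoImplicit false

open Polynomial

namespace Pool.Agent.K7.H57.D4

open Pool.Agent.K7.H47.DM4

theorem lead (hU : StU) (hB : StBlk) : StK := by
  classical
  intro ι _ _ t j cl ht hj ⟨σ0, hσ0⟩
  obtain ⟨σ, hσ, hmax⟩ : ∃ σ, Feas t j σ ∧ ∀ τ, Feas t j τ → Wt t cl τ ≤ Wt t cl σ := by
    have hne : (Finset.univ.filter fun σ => Feas t j σ).Nonempty := ⟨σ0, by simp [hσ0]⟩
    obtain ⟨σ, h1, h2⟩ := Finset.exists_max_image _ (Wt t cl) hne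
    exact ⟨σ, by simpa using h1, fun τ hτ => h2 τ (by simp [hτ])⟩
  have hblk := hB ι t j cl ht hj σ hσ
  intro h0
  apply hblk
  have hc : (Matrix.of fun r c => (C (((t r).choose (j c) : ℕ) : ℚ) * X ^ (cl c * t r) : ℚ[X])).det.coeff
      (Wt t cl σ) = (Matrix.of fun r c => if cl (σ.symm r) = cl c then (((t r).choose (j c) : ℕ) : ℚ) else 0).det := by
    rw [Matrix.det_apply', Matrix.det_apply', Polynomial.finsetSum_coeff]
    apply Finset.sum_congr rfl
    intro τ _
    have e1 : ∏ c, (Matrix.of fun r c => (C (((t r).choose (j c) : ℕ) : ℚ) * X ^ (cl c * t r) : ℚ[X])) (τ c) c =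
        C (∏ c, (((t (τ c)).choose (j c) : ℕ) : ℚ)) * X ^ (Wt t cl τ) := by
      simp only [Matrix.of_apply]
      rw [Finset.prod_mul_distrib, Finset.prod_pow_eq_pow_sum, map_prod]
      rfl
    have e2 : (((Equiv.Perm.sign τ : ℤˣ) : ℤ) : ℚ[X]) = C ((((Equiv.Perm.sign τ : ℤˣ) : ℤ)) : ℚ) := by simp
    rw [e1, e2, ← mul_assoc, ← C_mul, coeff_C_mul_X_pow]
    simp only [Matrix.of_apply]
    by_cases hf : Feas t j τ
    · by_cases hall : ∀ c, cl (σ.symm (τ c)) = cl c
      · have hW : Wt t cl σ = Wt t cl τ := by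
          unfold Wt
          rw [← Equiv.sum_comp (σ.symm) (fun c => cl c * t (σ c)), ← Equiv.sum_comp (τ) (fun r => cl (σ.symm r) * t (σ (σ.symm r)))]
          apply Finset.sum_congr rfl
          intro c _
          rw [hall c, Equiv.apply_symm_apply]
        rw [if_pos hW]
        congr 1
        apply Finset.prod_congr rfl
        intro c _
        rw [if_pos (hall c)]
      · have hW : Wt t cl σ ≠ Wt t cl τ := by
          intro hW
          apply hall
          intro c
          have h1 := hU ι t j cl ht σ τ hσ hf hmax (fun ρ hρ => hW ▸ hmax ρ hρ) (τ c)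
          rw [h1, Equiv.symm_apply_apply]
        rw [if_neg hW]
        push Not at hall
        obtain ⟨c, hc⟩ := hall
        rw [Finset.prod_eq_zero (Finset.mem_univ c) (if_neg hc), mul_zero]
    · unfold Feas at hf
      push Not at hf
      obtain ⟨c, hc⟩ := hf
      have hz : (((t (τ c)).choose (j c) : ℕ) : ℚ) = 0 := by
        rw [Nat.choose_eq_zero_of_lt hc]
        rfl
      have h1 : ∏ c, (((t (τ c)).choose (j c) : ℕ) : ℚ) = 0 := Finset.prod_eq_zero (Finset.mem_univ c) hz
      have h2 : ∏ c, (if cl (σ.symm (τ c)) = cl c then (((t (τ c)).choose (j c) : ℕ) : ℚ) else 0) = 0 :=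
        Finset.prod_eq_zero (Finset.mem_univ c) (by rw [hz]; simp)
      rw [h1, h2]
      simp
  have h3 := hc.symm
  rw [h0, coeff_zero] at h3
  convert h3

end Pool.Agent.K7.H57.D4
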