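import Mathlib

/-!
# Core obstruction for the Erdos-Suranyi constants
-/

set_option autoImplicit false

open Finset

namespace Pool.Agent.K7.H57.ESCore

lemma gcd_prod_dvd (Q : ℕ) (B : Finset ℕ) : Nat.gcd Q (∏ b ∈ B, b) ∣ ∏ b ∈ B, Nat.gcd Q b := by
  classical
  induction B using Finset.induction_on with
  | empty => simp
  | insert a s ha ih =>
    rw [prod_insert ha, prod_insert ha]
    exact (Nat.gcd_mul_right_dvd_mul_gcd Q a _).trans (mul_dvd_mul_left _ ih)

lemma dvd_prod_gcd (Q : ℕ) (B : Finset ℕ) (h : Q ∣ ∏ b ∈ B, b) : Q ∣ ∏ b ∈ B, Nat.gcd Q b := by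
  have := gcd_prod_dvd Q B
  rwa [Nat.gcd_eq_left h] at this

/-- the `N`-smooth numbers in the interval `(x, y]` -/
noncomputable def win (N : ℕ) (x y : ℝ) : Finset ℕ :=
  (Finset.range (⌊y⌋₊ + 1)).filter (fun a => a ∈ Nat.smoothNumbers N ∧ x < (a : ℝ))

lemma mem_win {N : ℕ} {x y : ℝ} {a : ℕ} (hx : 0 ≤ x) :
    a ∈ win N x y ↔ a ∈ Nat.smoothNumbers N ∧ x < (a : ℝ) ∧ (a : ℝ) ≤ y := by
  unfold win
  rw [mem_filter, mem_range, Nat.lt_succ_iff]
  constructor
  · rintro ⟨h1, h2, h3⟩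
    refine ⟨h2, h3, ?_⟩
    have h4 : (a : ℝ) ≤ (⌊y⌋₊ : ℝ) := by exact_mod_cast h1
    rcases le_or_gt 0 y with hy | hy
    · exact h4.trans (Nat.floor_le hy)
    · rw [Nat.floor_of_nonpos hy.le] at h4
      norm_num at h4
      rw [h4] at h3
      norm_num at h3
      linarith
  · rintro ⟨h1, h2, h3⟩
    exact ⟨Nat.le_floor h3, h1, h2⟩

/-- the pairs of a large prime and an element of `A p` -/
def pairs (P : Finset ℕ) (A : ℕ → Finset ℕ) : Finset (Σ _ : ℕ, ℕ) := P.sigma A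

/-- The core inequality. `N` is the smoothness bound, `A p` are sets of `N`-smooth numbers in `(m / 4, m]`, `P` a
set of large primes which are close to each other. -/
theorem core (N : ℕ) (m K c γ : ℝ) (hm : 2 ≤ m) (hK : 1 ≤ K) (hc : 0 < c) (hγ : 0 ≤ γ)
    (hN : (K + c) ≤ N / 8) (P : Finset ℕ) (hP : ∀ p ∈ P, p.Prime) (hPbig : ∀ p ∈ P, (K + c) * m < p)
    (hPclose : ∀ p ∈ P, ∀ q ∈ P, (K + γ) * p ≤ (K + c) * q)
    (A : ℕ → Finset ℕ) (hA : ∀ p ∈ P, ∀ a ∈ A p, a ∈ Nat.smoothNumbers N ∧ m / 4 < (a : ℝ) ∧ (a : ℝ) ≤ m)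
    (hA2 : ∀ p ∈ P, ∀ a ∈ A p, 2 ≤ a)
    (hne : 0 < ∑ p ∈ P, (A p).card)
    (hadm : ∀ A' : Finset ℕ, A'.card = ∑ p ∈ P, (A p).card → (∀ a ∈ A', 2 ≤ a) → ∀ M ∈ A', (∀ a ∈ A', a ≤ M) →
      ∀ x : ℝ, 0 ≤ x → ∃ B : Finset ℕ, B.card = ∑ p ∈ P, (A p).card ∧
        (∀ b ∈ B, 1 ≤ b ∧ x < (b : ℝ) ∧ (b : ℝ) < x + γ * M) ∧ (∏ a ∈ A', a) ∣ ∏ b ∈ B, b) :
    2 ^ (∑ p ∈ P, (A p).card) < N ^ (P.card * (win N (K * m) ((K + c) * m)).card) := by
  classical
  set n := ∑ p ∈ P, (A p).card with hn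
  have hKc : (1 : ℝ) < K + c := by linarith
  have hm0 : (0 : ℝ) < m := by linarith
  have hmKc : m < (K + c) * m := by nlinarith
  -- the set
  set E : Finset (Σ _ : ℕ, ℕ) := P.sigma A with hE
  have hEcard : E.card = n := by rw [hE, card_sigma]
  have hcop : ∀ p ∈ P, ∀ a : ℕ, 0 < a → (a : ℝ) < (K + c) * m → ¬ p ∣ a := by
    intro p hp a ha ham hpa
    have h1 := Nat.le_of_dvd ha hpa
    have h2 : (p : ℝ) ≤ a := by exact_mod_cast h1
    linarith [hPbig p hp]
  have hinj : Set.InjOn (fun e : (Σ _ : ℕ, ℕ) => e.1 * e.2) (E : Set (Σ _ : ℕ, ℕ)) := by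
    rintro ⟨p, a⟩ he ⟨q, b⟩ hf h
    rw [mem_coe, hE, mem_sigma] at he hf
    simp only at h he hf
    have ha := hA p he.1 a he.2
    have hb := hA q hf.1 b hf.2
    have ha2 := hA2 p he.1 a he.2
    have hb2 := hA2 q hf.1 b hf.2
    have hpq : p = q := by
      have h1 : p ∣ q * b := ⟨a, h.symm⟩
      rcases (hP p he.1).dvd_mul.1 h1 with h2 | h2
      · exact (Nat.prime_dvd_prime_iff_eq (hP p he.1) (hP q hf.1)).1 h2
      · exact absurd h2 (hcop p he.1 b (by omega) (by linarith [hb.2.2]))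
    subst hpq
    have h3 : a = b := Nat.eq_of_mul_eq_mul_left (hP p he.1).pos h
    subst h3
    rfl
  set A' : Finset ℕ := E.image (fun e => e.1 * e.2) with hA'
  have hA'card : A'.card = n := by rw [hA', card_image_of_injOn hinj, hEcard]
  have hA'ne : A'.Nonempty := by
    rw [← card_pos, hA'card]
    exact hne
  have hA'2 : ∀ a ∈ A', 2 ≤ a := by
    intro a ha
    rw [hA', mem_image] at ha
    obtain ⟨⟨p, b⟩, he, rfl⟩ := ha
    rw [hE, mem_sigma] at he
    have h1 := (hP p he.1).pos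
    have h2 := hA2 p he.1 b he.2
    simp only at h1 h2 ⊢
    nlinarith
  have hprodA' : ∏ a ∈ A', a = ∏ e ∈ E, e.1 * e.2 := by
    rw [hA', prod_image hinj]
  obtain ⟨M, hM, hMmax⟩ : ∃ M ∈ A', ∀ a ∈ A', a ≤ M :=
    ⟨A'.max' hA'ne, A'.max'_mem hA'ne, fun a ha => A'.le_max' a ha⟩
  -- the smallest and largest primes
  have hPne : P.Nonempty := by
    by_contra h
    rw [not_nonempty_iff_eq_empty] at h
    rw [hn, h] at hne
    simp at hne
  obtain ⟨pmax, hpmax, hpmax'⟩ : ∃ p ∈ P, ∀ q ∈ P, q ≤ p :=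
    ⟨P.max' hPne, P.max'_mem hPne, fun a ha => P.le_max' a ha⟩
  obtain ⟨pmin, hpmin, hpmin'⟩ : ∃ p ∈ P, ∀ q ∈ P, p ≤ q :=
    ⟨P.min' hPne, P.min'_mem hPne, fun a ha => P.min'_le a ha⟩
  have hMle : (M : ℝ) ≤ m * pmax := by
    rw [hA', mem_image] at hM
    obtain ⟨⟨p, b⟩, he, hM1⟩ := hM
    rw [hE, mem_sigma] at he
    simp only at hM1 he
    have h1 : (p : ℝ) ≤ pmax := by exact_mod_cast hpmax' p he.1
    have h2 := (hA p he.1 b he.2).2.2
    rw [← hM1]
    push_cast
    have h3 : (0 : ℝ) ≤ p := by positivity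
    nlinarith
  -- the position
  set Q : ℕ := ∏ e ∈ E, e.2 with hQ
  have hQ0 : 0 < Q := by
    rw [hQ]
    refine prod_pos fun e he => ?_
    obtain ⟨p, a⟩ := e
    rw [hE, mem_sigma] at he
    have := hA2 p he.1 a he.2
    simp only
    omega
  set X : ℕ := Q * ∏ p ∈ P, p ^ 2 with hX
  have hQX : Q ∣ X := ⟨_, hX⟩
  have hpX : ∀ p ∈ P, p ^ 2 ∣ X := fun p hp => (dvd_prod_of_mem (fun p => p ^ 2) hp).mul_left _
  have hT0 : (0 : ℝ) ≤ K * m * pmax := by positivity
  obtain ⟨B, hBcard, hB, hBdvd⟩ := hadm A' hA'card hA'2 M hM hMmax (X + K * m * pmax) (by positivity)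
  -- every element of `B` is `X + u`
  have hBX : ∀ b ∈ B, X < b ∧ K * m * pmax < ((b - X : ℕ) : ℝ) ∧
      ((b - X : ℕ) : ℝ) < (K + c) * m * pmin := by
    intro b hb
    obtain ⟨h1, h2, h3⟩ := hB b hb
    have h4 : (X : ℝ) < b := by linarith
    have h5 : X < b := by exact_mod_cast h4
    refine ⟨h5, ?_, ?_⟩
    · rw [Nat.cast_sub h5.le]
      linarith
    · rw [Nat.cast_sub h5.le]
      have h6 : γ * M ≤ γ * (m * pmax) := mul_le_mul_of_nonneg_left hMle hγ
      have h7 := hPclose pmax hpmax pmin hpmin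
      have h8 : (K + γ) * pmax * m ≤ (K + c) * pmin * m := mul_le_mul_of_nonneg_right h7 hm0.le
      linarith
  have hudvd : ∀ b ∈ B, ∀ d : ℕ, d ∣ X → (d ∣ b ↔ d ∣ b - X) := by
    intro b hb d hd
    have h5 := (hBX b hb).1
    constructor
    · intro h
      exact Nat.dvd_sub h hd
    · intro h
      have := dvd_add h hd
      rwa [Nat.sub_add_cancel h5.le] at this
  have hpminbig := hPbig pmin hpmin
  have hlt_of : ∀ p ∈ P, ∀ q ∈ P, (K + c) * m * pmin < (p : ℝ) * q := by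
    intro p hp q hq
    have h1 : (pmin : ℝ) ≤ p := by exact_mod_cast hpmin' p hp
    have h3 := hPbig q hq
    have h4 : (0 : ℝ) < (K + c) * m := by positivity
    have h5 : (0 : ℝ) < pmin := by exact_mod_cast (hP pmin hpmin).pos
    nlinarith
  have hnot2 : ∀ b ∈ B, ∀ p ∈ P, ¬ p ^ 2 ∣ b := by
    intro b hb p hp h
    have h1 := (hudvd b hb _ (hpX p hp)).1 h
    have h2 := hBX b hb
    have h3 : 0 < b - X := by omega
    have h4 := Nat.le_of_dvd h3 h1
    have h5 : ((p ^ 2 : ℕ) : ℝ) ≤ ((b - X : ℕ) : ℝ) := by exact_mod_cast h4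
    have h6 := hlt_of p hp p hp
    push_cast at h5
    nlinarith [h2.2.2]
  have hnotpq : ∀ b ∈ B, ∀ p ∈ P, ∀ q ∈ P, p ∣ b → q ∣ b → p = q := by
    intro b hb p hp q hq h h'
    by_contra hne
    have hpXd : p ∣ X := (dvd_pow_self p two_ne_zero).trans (hpX p hp)
    have hqXd : q ∣ X := (dvd_pow_self q two_ne_zero).trans (hpX q hq)
    have h1 := (hudvd b hb _ hpXd).1 h
    have h1' := (hudvd b hb _ hqXd).1 h'
    have hc : Nat.Coprime p q := (Nat.coprime_primes (hP p hp) (hP q hq)).2 hne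
    have h2 := Nat.Coprime.mul_dvd_of_dvd_of_dvd hc h1 h1'
    have h3 := hBX b hb
    have h4 := Nat.le_of_dvd (by omega) h2
    have h5 : ((p * q : ℕ) : ℝ) ≤ ((b - X : ℕ) : ℝ) := by exact_mod_cast h4
    have h6 := hlt_of p hp q hq
    push_cast at h5
    linarith [h3.2.2]
  -- counting multiples of `p` in `B`
  have hcount : ∀ p ∈ P, (A p).card ≤ (B.filter (fun b => p ∣ b)).card := by
    intro p hp
    have h1 : p ^ (A p).card ∣ ∏ b ∈ B, b := by
      refine dvd_trans ?_ hBdvd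
      rw [hprodA', hE, prod_sigma]
      refine dvd_trans ?_ (dvd_prod_of_mem _ hp)
      rw [← prod_const]
      exact prod_dvd_prod_of_dvd _ _ fun a _ => ⟨a, rfl⟩
    have h2 := dvd_prod_gcd _ _ h1
    have h3 : ∏ b ∈ B, Nat.gcd (p ^ (A p).card) b = p ^ (B.filter (fun b => p ∣ b)).card ∨
        (∏ b ∈ B, Nat.gcd (p ^ (A p).card) b) ∣ p ^ (B.filter (fun b => p ∣ b)).card := by
      right
      have e1 : p ^ (B.filter (fun b => p ∣ b)).card = ∏ b ∈ B, (if p ∣ b then p else 1) := by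
        rw [← prod_filter, prod_const]
      rw [e1]
      refine prod_dvd_prod_of_dvd _ _ fun b hb => ?_
      obtain ⟨k, hk, hk'⟩ := (Nat.dvd_prime_pow (hP p hp)).1 (Nat.gcd_dvd_left (p ^ (A p).card) b)
      rw [hk']
      split_ifs with hpb
      · have hk2 : k < 2 := by
          by_contra hcon
          rw [not_lt] at hcon
          apply hnot2 b hb p hp
          refine (pow_dvd_pow p hcon).trans ?_
          rw [← hk']
          exact Nat.gcd_dvd_right _ _
        calc p ^ k ∣ p ^ 1 := pow_dvd_pow p (by omega)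
          _ = p := pow_one p
      · have hk0 : k = 0 := by
          by_contra hk0
          apply hpb
          refine (dvd_pow_self p hk0).trans ?_
          rw [← hk']
          exact Nat.gcd_dvd_right _ _
        rw [hk0, pow_zero]
    have h4 : p ^ (A p).card ∣ p ^ (B.filter (fun b => p ∣ b)).card := by
      rcases h3 with h3 | h3
      · rw [← h3]; exact h2
      · exact h2.trans h3
    exact (Nat.pow_dvd_pow_iff_le_right (hP p hp).one_lt).1 h4
  -- each element of `B` is divisible by a prime in `P`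
  have hexp : ∀ b ∈ B, ∃ p ∈ P, p ∣ b := by
    have hdisj : (P : Set ℕ).PairwiseDisjoint (fun p => B.filter (fun b => p ∣ b)) := by
      intro p hp q hq hpq
      rw [Function.onFun, Finset.disjoint_left]
      intro b hb hb'
      rw [mem_filter] at hb hb'
      exact hpq (hnotpq b hb.1 p hp q hq hb.2 hb'.2)
    have h1 : (P.biUnion (fun p => B.filter (fun b => p ∣ b))).card = ∑ p ∈ P, (B.filter (fun b => p ∣ b)).card :=
      card_biUnion hdisj
    have h2 : P.biUnion (fun p => B.filter (fun b => p ∣ b)) ⊆ B := by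
      intro b hb
      rw [mem_biUnion] at hb
      obtain ⟨p, _, hb⟩ := hb
      exact (mem_filter.1 hb).1
    have h3 : P.biUnion (fun p => B.filter (fun b => p ∣ b)) = B := by
      apply eq_of_subset_of_card_le h2
      rw [h1, hBcard, hn]
      exact sum_le_sum hcount
    intro b hb
    rw [← h3, mem_biUnion] at hb
    obtain ⟨p, hp, hb⟩ := hb
    exact ⟨p, hp, (mem_filter.1 hb).2⟩
  choose! f hfP hfd using hexp
  -- the cofactor
  set τ : ℕ → ℕ := fun b => (b - X) / f b with hτ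
  have hτ1 : ∀ b ∈ B, b - X = f b * τ b := by
    intro b hb
    have hpXd : f b ∣ X := (dvd_pow_self _ two_ne_zero).trans (hpX _ (hfP b hb))
    have h1 := (hudvd b hb _ hpXd).1 (hfd b hb)
    exact (Nat.mul_div_cancel' h1).symm
  have hτ2 : ∀ b ∈ B, K * m < (τ b : ℝ) ∧ (τ b : ℝ) < (K + c) * m := by
    intro b hb
    have h1 := hBX b hb
    rw [hτ1 b hb] at h1
    push_cast at h1
    have h2 : (f b : ℝ) ≤ pmax := by exact_mod_cast hpmax' _ (hfP b hb)
    have h3 : (pmin : ℝ) ≤ f b := by exact_mod_cast hpmin' _ (hfP b hb)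
    have h4 : (0 : ℝ) < f b := by exact_mod_cast (hP _ (hfP b hb)).pos
    have h5 : 0 < K * m := by positivity
    constructor
    · by_contra h
      rw [not_lt] at h
      have : (f b : ℝ) * τ b ≤ f b * (K * m) := mul_le_mul_of_nonneg_left h h4.le
      have : (f b : ℝ) * (K * m) ≤ pmax * (K * m) := mul_le_mul_of_nonneg_right h2 h5.le
      linarith [h1.2.1]
    · by_contra h
      rw [not_lt] at h
      have : (f b : ℝ) * ((K + c) * m) ≤ f b * τ b := mul_le_mul_of_nonneg_left h h4.le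
      have : (pmin : ℝ) * ((K + c) * m) ≤ f b * ((K + c) * m) :=
        mul_le_mul_of_nonneg_right h3 (by positivity)
      linarith [h1.2.2]
  -- `Q` divides the product of the gcds
  have hQdvd : Q ∣ ∏ b ∈ B, Nat.gcd Q b := by
    apply dvd_prod_gcd
    refine dvd_trans ?_ hBdvd
    rw [hprodA', hQ]
    exact prod_dvd_prod_of_dvd _ _ fun e _ => ⟨e.1, by ring⟩
  have hQsm : Q ∈ Nat.smoothNumbers N := by
    rw [Nat.mem_smoothNumbers']
    intro p hp hpQ
    rw [hQ, Prime.dvd_finsetProd_iff hp.prime] at hpQ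
    obtain ⟨⟨q, a⟩, he, hpa⟩ := hpQ
    rw [hE, mem_sigma] at he
    exact (Nat.mem_smoothNumbers'.1 (hA q he.1 a he.2).1) p hp hpa
  have hgcd : ∀ b ∈ B, Nat.gcd Q b = Nat.gcd Q (τ b) := by
    intro b hb
    have h5 := (hBX b hb).1
    have h6 : b = f b * τ b + X := by
      rw [← hτ1 b hb]
      omega
    have h7 : Nat.gcd Q b = Nat.gcd Q (f b * τ b) := by
      obtain ⟨k, hk⟩ := hQX
      conv_lhs => rw [h6, hk]
      rw [Nat.gcd_add_mul_left_right]
    rw [h7]
    apply Nat.Coprime.gcd_mul_left_cancel_right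
    rw [Nat.Prime.coprime_iff_not_dvd (hP _ (hfP b hb))]
    intro h8
    have h9 := (Nat.mem_smoothNumbers'.1 hQsm) _ (hP _ (hfP b hb)) h8
    have h10 := hPbig _ (hfP b hb)
    -- f b < N, but f b > (K + c) m; need another argument: f b does not divide the elements
    rw [hQ, Prime.dvd_finsetProd_iff (hP _ (hfP b hb)).prime] at h8
    obtain ⟨⟨q, a⟩, he, hpa⟩ := h8
    rw [hE, mem_sigma] at he
    have ha := hA q he.1 a he.2
    have ha2 := hA2 q he.1 a he.2
    simp only at hpa ha ha2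
    exact hcop _ (hfP b hb) a (by omega) (by linarith [ha.2.2]) hpa
  set W := win N (K * m) ((K + c) * m) with hW
  have hbound : ∀ b ∈ B, (Nat.gcd Q (τ b) : ℝ) ≤ (m / 4 * 1) * (if τ b ∈ W then (N : ℝ) else 1) / 2 := by
    intro b hb
    have h1 := hτ2 b hb
    have hKm : 0 < K * m := by positivity
    have hτ0 : 0 < τ b := by
      have : (0 : ℝ) < τ b := by linarith [h1.1]
      exact_mod_cast this
    have hN' : (K + c) * m ≤ N / 8 * m := mul_le_mul_of_nonneg_right hN hm0.le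
    split_ifs with h
    · have h2 : (Nat.gcd Q (τ b) : ℝ) ≤ τ b := by exact_mod_cast Nat.gcd_le_right _ hτ0
      linarith [h1.2]
    · have h2 : τ b ∉ Nat.smoothNumbers N := by
        intro h2
        exact h ((mem_win hKm.le).2 ⟨h2, h1.1, h1.2.le⟩)
      rw [Nat.mem_smoothNumbers'] at h2
      push Not at h2
      obtain ⟨q, hq, hqd, hqN⟩ := h2
      have h3 : ¬ q ∣ Q := by
        intro h3
        have := (Nat.mem_smoothNumbers'.1 hQsm) q hq h3
        omega
      have h4 : Nat.Coprime (Nat.gcd Q (τ b)) q := by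
        rw [Nat.coprime_comm, Nat.Prime.coprime_iff_not_dvd hq]
        exact fun h => h3 (h.trans (Nat.gcd_dvd_left _ _))
      have h5 : Nat.gcd Q (τ b) * q ∣ τ b :=
        Nat.Coprime.mul_dvd_of_dvd_of_dvd h4 (Nat.gcd_dvd_right _ _) hqd
      have h6 := Nat.le_of_dvd hτ0 h5
      have h7 : (Nat.gcd Q (τ b) : ℝ) * q ≤ τ b := by exact_mod_cast h6
      have h8 : (N : ℝ) ≤ q := by exact_mod_cast hqN
      have h9 : (0 : ℝ) ≤ Nat.gcd Q (τ b) := by positivity
      have h10 : (Nat.gcd Q (τ b) : ℝ) * N ≤ N / 8 * m := by nlinarith [h1.2]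
      have hNpos : (0 : ℝ) < N := by
        by_contra hcon
        have : (N : ℝ) ≤ 0 := not_lt.1 hcon
        linarith
      have h11 : (Nat.gcd Q (τ b) : ℝ) ≤ m / 8 := by
        by_contra hcon
        rw [not_le] at hcon
        nlinarith
      linarith
  -- assemble
  have hfin1 : (Q : ℝ) ≤ ∏ b ∈ B, ((m / 8) * (if τ b ∈ W then (N : ℝ) else 1)) := by
    have h1 : Q ≤ ∏ b ∈ B, Nat.gcd Q b := by
      apply Nat.le_of_dvd _ hQdvd
      exact prod_pos fun b _ => Nat.gcd_pos_of_pos_left _ hQ0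
    have h2 : (Q : ℝ) ≤ ∏ b ∈ B, (Nat.gcd Q b : ℝ) := by exact_mod_cast h1
    refine h2.trans ?_
    refine prod_le_prod (fun b _ => by positivity) fun b hb => ?_
    rw [hgcd b hb]
    refine (hbound b hb).trans (le_of_eq ?_)
    ring
  have hfin2 : ∏ b ∈ B, ((m / 8) * (if τ b ∈ W then (N : ℝ) else 1)) =
      (m / 8) ^ n * (N : ℝ) ^ (B.filter (fun b => τ b ∈ W)).card := by
    rw [prod_mul_distrib, prod_const, hBcard, ← prod_filter, prod_const]
  have hfin3 : (B.filter (fun b => τ b ∈ W)).card ≤ P.card * W.card := by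
    rw [← card_product]
    refine card_le_card_of_injOn (fun b => (f b, τ b)) ?_ ?_
    · intro b hb
      have hb' := mem_filter.1 (mem_coe.1 hb)
      rw [mem_coe, mem_product]
      exact ⟨hfP b hb'.1, hb'.2⟩
    · intro b hb b' hb' h
      have hb1 := (mem_filter.1 (mem_coe.1 hb)).1
      have hb2 := (mem_filter.1 (mem_coe.1 hb')).1
      simp only [Prod.mk.injEq] at h
      have e1 := hτ1 b hb1
      have e2 := hτ1 b' hb2
      rw [h.1, h.2] at e1
      have h3 := (hBX b hb1).1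
      have h4 := (hBX b' hb2).1
      omega
  have hfin4 : (m / 4) ^ n < (Q : ℝ) := by
    rw [hQ, ← hEcard, ← prod_const]
    push_cast
    have hEne : E.Nonempty := by
      rw [← card_pos, hEcard]
      exact hne
    refine prod_lt_prod_of_nonempty (fun e _ => by positivity) (fun e he => ?_) hEne
    obtain ⟨p, a⟩ := e
    rw [hE, mem_sigma] at he
    exact (hA p he.1 a he.2).2.1
  have hN1 : (1 : ℝ) ≤ N := by linarith
  have hfin5 : (N : ℝ) ^ (B.filter (fun b => τ b ∈ W)).card ≤ (N : ℝ) ^ (P.card * W.card) :=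
    pow_le_pow_right₀ hN1 hfin3
  have h6 : (m / 4) ^ n < (m / 8) ^ n * (N : ℝ) ^ (P.card * W.card) := by
    calc (m / 4) ^ n < (Q : ℝ) := hfin4
      _ ≤ _ := hfin1
      _ = _ := hfin2
      _ ≤ _ := mul_le_mul_of_nonneg_left hfin5 (by positivity)
  have h7 : (m / 4) ^ n = (m / 8) ^ n * 2 ^ n := by
    rw [← mul_pow]
    congr 1
    ring
  rw [h7] at h6
  have h8 : (2 : ℝ) ^ n < (N : ℝ) ^ (P.card * W.card) := lt_of_mul_lt_mul_left h6 (by positivity)
  exact_mod_cast h8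

end Pool.Agent.K7.H57.ESCore
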