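import Mathlib

/-!
# Many primes in short multiplicative intervals
-/

set_option autoImplicit false

open Finset

namespace Pool.Agent.K7.H57.ESPrimes

lemma exists_pow (a b c : ℝ) : ∃ k : ℕ, 1 ≤ k ∧ a * k ^ 2 + b * k + c < 2 ^ k := by
  have h2 := tendsto_pow_const_div_const_pow_of_one_lt 2 (show (1 : ℝ) < 2 by norm_num)
  have h1 := tendsto_pow_const_div_const_pow_of_one_lt 1 (show (1 : ℝ) < 2 by norm_num)
  have h0 := tendsto_pow_const_div_const_pow_of_one_lt 0 (show (1 : ℝ) < 2 by norm_num)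
  have h := ((h2.const_mul a).add (h1.const_mul b)).add (h0.const_mul c)
  simp only [mul_zero, add_zero] at h
  obtain ⟨k, hk, hk1⟩ := ((h.eventually (gt_mem_nhds (show (0 : ℝ) < 1 by norm_num))).and
    (Filter.eventually_ge_atTop 1)).exists
  refine ⟨k, hk1, ?_⟩
  have hpos : (0 : ℝ) < 2 ^ k := by positivity
  have e : a * ((k : ℝ) ^ 2 / 2 ^ k) + b * ((k : ℝ) ^ 1 / 2 ^ k) + c * ((k : ℝ) ^ 0 / 2 ^ k)
      = (a * k ^ 2 + b * k + c) / 2 ^ k := by
    field_simp
  rw [e, div_lt_one hpos] at hk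
  exact hk

lemma pi_two_pow (k : ℕ) (hk : 1 ≤ k) : ((2 : ℝ) ^ k - (k + 1)) / k ≤ Nat.primeCounting (2 ^ k) := by
  have h := Chebyshev.pi_ge (2 ^ k)
  refine le_trans ?_ h
  have hlog2 : 0 < Real.log 2 := Real.log_pos (by norm_num)
  have hk0 : (0 : ℝ) < k := by exact_mod_cast hk
  push_cast
  rw [Real.log_pow]
  rw [div_le_div_iff₀ hk0 (by positivity)]
  have h3 : Real.log ((2 : ℝ) ^ k + 1) ≤ (k + 1) * Real.log 2 := by
    have : ((2 : ℝ) ^ k + 1) ≤ 2 ^ (k + 1) := by
      have : (1 : ℝ) ≤ 2 ^ k := one_le_pow₀ (by norm_num)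
      rw [pow_succ]; linarith
    calc Real.log ((2 : ℝ) ^ k + 1) ≤ Real.log (2 ^ (k + 1)) := Real.log_le_log (by positivity) this
      _ = _ := by rw [Real.log_pow]; push_cast; ring
  nlinarith

/-- For every `ρ > 1`, `r` and `Z` there are `r` primes larger than `Z` any two of which have a quotient less
than `ρ`. -/
theorem exists_close_primes (ρ : ℝ) (hρ : 1 < ρ) (r : ℕ) (Z : ℕ) :
    ∃ P : Finset ℕ, P.card = r ∧ (∀ p ∈ P, p.Prime) ∧ (∀ p ∈ P, Z < p) ∧
      ∀ p ∈ P, ∀ q ∈ P, (p : ℝ) ≤ ρ * q := by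
  classical
  set C : ℝ := Real.log 2 / Real.log ρ with hC
  have hlogρ : 0 < Real.log ρ := Real.log_pos hρ
  have hlog2 : 0 < Real.log 2 := Real.log_pos (by norm_num)
  have hC0 : 0 < C := div_pos hlog2 hlogρ
  obtain ⟨k, hk1, hk⟩ := exists_pow (r * C) (r + Z + 2) 1
  have hk0 : (0 : ℝ) < k := by exact_mod_cast hk1
  -- the primes
  set S : Finset ℕ := (Finset.range (2 ^ k + 1)).filter (fun p => p.Prime ∧ Z < p) with hS
  set T : Finset ℕ := Finset.range (⌊C * k⌋₊ + 1) with hT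
  set g : ℕ → ℕ := fun p => ⌊Real.log p / Real.log ρ⌋₊ with hg
  have hmaps : ∀ p ∈ S, g p ∈ T := by
    intro p hp
    rw [hS, mem_filter, mem_range] at hp
    rw [hT, mem_range, Nat.lt_succ_iff, hg]
    apply Nat.floor_le_floor
    rw [hC, div_mul_eq_mul_div]
    apply div_le_div_of_nonneg_right _ hlogρ.le
    have h1 : (p : ℝ) ≤ 2 ^ k := by
      have : p ≤ 2 ^ k := by omega
      exact_mod_cast this
    calc Real.log p ≤ Real.log (2 ^ k) := Real.log_le_log (by exact_mod_cast hp.2.1.pos) h1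
      _ = Real.log 2 * k := by rw [Real.log_pow]; ring
  have hScard : (Nat.primeCounting (2 ^ k) : ℝ) ≤ S.card + Z := by
    have h1 : Nat.primeCounting (2 ^ k) = ((Finset.range (2 ^ k + 1)).filter Nat.Prime).card := by
      rw [Nat.primeCounting, Nat.primeCounting', Nat.count_eq_card_filter_range]
    have h2 : (Finset.range (2 ^ k + 1)).filter Nat.Prime ⊆ S ∪ Finset.Icc 1 Z := by
      intro p hp
      rw [mem_filter] at hp
      rw [mem_union, hS, mem_filter, mem_Icc]
      rcases Nat.lt_or_ge Z p with h | h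
      · left; exact ⟨hp.1, hp.2, h⟩
      · right; exact ⟨hp.2.one_le, h⟩
    have h3 := card_le_card h2
    have h4 := card_union_le S (Finset.Icc 1 Z)
    rw [Nat.card_Icc] at h4
    rw [h1]
    have : ((Finset.range (2 ^ k + 1)).filter Nat.Prime).card ≤ S.card + Z := by omega
    exact_mod_cast this
  have hcount : T.card * r < S.card := by
    have h1 := pi_two_pow k hk1
    rw [hT, card_range]
    have h2 : ((⌊C * k⌋₊ + 1 : ℕ) : ℝ) ≤ C * k + 1 := by
      push_cast
      linarith [Nat.floor_le (show 0 ≤ C * k by positivity)]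
    have h3 : (((⌊C * k⌋₊ + 1) * r : ℕ) : ℝ) ≤ (C * k + 1) * r := by
      push_cast at h2 ⊢
      exact mul_le_mul_of_nonneg_right h2 (by positivity)
    have h4 : (C * k + 1) * r + Z < ((2 : ℝ) ^ k - (k + 1)) / k := by
      rw [lt_div_iff₀ hk0]
      have hk1' : (1 : ℝ) ≤ k := by exact_mod_cast hk1
      nlinarith
    have h5 : (((⌊C * k⌋₊ + 1) * r : ℕ) : ℝ) < (S.card : ℝ) := by linarith
    exact_mod_cast h5
  obtain ⟨j, hj, hlt⟩ := exists_lt_card_fiber_of_mul_lt_card_of_maps_to hmaps hcount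
  obtain ⟨P, hPsub, hPcard⟩ := exists_subset_card_eq hlt.le
  refine ⟨P, hPcard, ?_, ?_, ?_⟩
  · intro p hp
    have := hPsub hp
    rw [mem_filter, hS, mem_filter] at this
    exact this.1.2.1
  · intro p hp
    have := hPsub hp
    rw [mem_filter, hS, mem_filter] at this
    exact this.1.2.2
  · intro p hp q hq
    have h1 := hPsub hp
    have h2 := hPsub hq
    rw [mem_filter, hS, mem_filter] at h1 h2
    have hp0 : (0 : ℝ) < p := by exact_mod_cast h1.1.2.1.pos
    have hq0 : (0 : ℝ) < q := by exact_mod_cast h2.1.2.1.pos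
    have hp1 : (1 : ℝ) ≤ p := by exact_mod_cast h1.1.2.1.one_le
    have hq1 : (1 : ℝ) ≤ q := by exact_mod_cast h2.1.2.1.one_le
    have h3 : Real.log p / Real.log ρ < j + 1 := by
      have := Nat.lt_floor_add_one (Real.log p / Real.log ρ)
      rw [← h1.2]
      exact this
    have h4 : (j : ℝ) ≤ Real.log q / Real.log ρ := by
      rw [← h2.2]
      exact Nat.floor_le (div_nonneg (Real.log_nonneg hq1) hlogρ.le)
    rw [div_lt_iff₀ hlogρ] at h3
    rw [le_div_iff₀ hlogρ] at h4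
    have h5 : Real.log p < Real.log (ρ * q) := by
      rw [Real.log_mul (by linarith) hq0.ne']
      nlinarith
    exact ((Real.log_lt_log_iff hp0 (by positivity)).1 h5).le

end Pool.Agent.K7.H57.ESPrimes
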