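import Mathlib
import Pool.Agent.K7.H57.ESCore

/-!
# Smooth numbers: Rankin's bound, and an interval with few smooth numbers
-/

set_option autoImplicit false

open Finset

namespace Pool.Agent.K7.H57.ESSmooth

open Pool.Agent.K7.H57.ESCore (win mem_win)

/-- `n ↦ n ^ (-s)` -/
noncomputable def pw (s : ℝ) (_hs : 0 < s) : ℕ →* ℝ where
  toFun n := (n : ℝ) ^ (-s)
  map_one' := by simp
  map_mul' a b := by
    push_cast
    exact Real.mul_rpow (by positivity) (by positivity)

lemma pw_norm_lt (s : ℝ) (hs : 0 < s) {p : ℕ} (hp : p.Prime) : ‖pw s hs p‖ < 1 := by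
  have h1 : (1 : ℝ) < p := by exact_mod_cast hp.one_lt
  have : pw s hs p = (p : ℝ) ^ (-s) := rfl
  rw [this, Real.norm_of_nonneg (by positivity)]
  exact Real.rpow_lt_one_of_one_lt_of_neg h1 (by linarith)

/-- the Euler product -/
noncomputable def Z (N : ℕ) (s : ℝ) : ℝ := ∏ p ∈ N.primesBelow, (1 - (p : ℝ) ^ (-s))⁻¹

lemma rankin (N : ℕ) (s : ℝ) (hs : 0 < s) (x : ℝ) (hx : 0 < x) :
    ((win N 0 x).card : ℝ) ≤ x ^ s * Z N s := by
  classical
  have h := EulerProduct.summable_and_hasSum_smoothNumbers_prod_primesBelow_geometric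
    (f := pw s hs) (fun hp => pw_norm_lt s hs hp) N
  have hsum : Summable (fun m : N.smoothNumbers => pw s hs m) := h.2.summable
  have hval : ∑' m : N.smoothNumbers, pw s hs m = Z N s := h.2.tsum_eq
  have h1 : ∑ a ∈ win N 0 x, (a : ℝ) ^ (-s) ≤ Z N s := by
    rw [← hval]
    have h2 : ∑ a ∈ win N 0 x, (a : ℝ) ^ (-s) =
        ∑ a ∈ (win N 0 x).subtype (fun a => a ∈ N.smoothNumbers), pw s hs a := by
      rw [Finset.sum_subtype_eq_sum_filter (s := win N 0 x) (f := fun a => pw s hs a)]
      apply Finset.sum_congr _ fun a _ => rfl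
      rw [Finset.filter_true_of_mem]
      intro a ha
      exact ((mem_win le_rfl).1 ha).1
    rw [h2]
    refine hsum.sum_le_tsum _ fun a _ => ?_
    have : pw s hs a = ((a : ℕ) : ℝ) ^ (-s) := rfl
    rw [this]
    positivity
  have h3 : ((win N 0 x).card : ℝ) ≤ x ^ s * ∑ a ∈ win N 0 x, (a : ℝ) ^ (-s) := by
    rw [mul_sum, card_eq_sum_ones]
    push_cast
    refine sum_le_sum fun a ha => ?_
    obtain ⟨h4, h5, h6⟩ := (mem_win le_rfl).1 ha
    rw [Real.rpow_neg h5.le, ← div_eq_mul_inv, ← Real.div_rpow hx.le h5.le]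
    exact Real.one_le_rpow ((one_le_div h5).2 h6) hs.le
  exact h3.trans (mul_le_mul_of_nonneg_left h1 (by positivity))

lemma one_sub_exp {u : ℝ} (h0 : 0 ≤ u) (h1 : u ≤ 1) : u / 2 ≤ 1 - Real.exp (-u) := by
  have h := Real.exp_bound_div_one_sub_of_interval h0
  -- `exp (-u) ≤ 1 / (1 + u)`
  have h2 : 1 + u ≤ Real.exp u := by linarith [Real.add_one_le_exp u]
  have h3 : Real.exp (-u) ≤ 1 / (1 + u) := by
    rw [Real.exp_neg, ← one_div]
    exact one_div_le_one_div_of_le (by linarith) h2
  have h4 : 1 / (1 + u) ≤ 1 - u / 2 := by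
    rw [div_le_iff₀ (by linarith)]
    nlinarith
  linarith

lemma Z_pos (N : ℕ) (s : ℝ) (hs : 0 < s) : 1 ≤ Z N s := by
  unfold Z
  have : ∀ p ∈ N.primesBelow, (1 : ℝ) ≤ (1 - (p : ℝ) ^ (-s))⁻¹ := by
    intro p hp
    have hp' := Nat.prime_of_mem_primesBelow hp
    have h1 : (1 : ℝ) < p := by exact_mod_cast hp'.one_lt
    have h2 : (p : ℝ) ^ (-s) < 1 := Real.rpow_lt_one_of_one_lt_of_neg h1 (by linarith)
    have h3 : 0 < (p : ℝ) ^ (-s) := by positivity
    rw [one_le_inv₀ (by linarith)]
    linarith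
  calc (1 : ℝ) = ∏ p ∈ N.primesBelow, (1 : ℝ) := by simp
    _ ≤ _ := prod_le_prod (fun _ _ => by norm_num) this

lemma log_le_two_sqrt {x : ℝ} (hx : 0 < x) : Real.log x ≤ 2 * √x := by
  have h : Real.log x = 2 * Real.log (√x) := by
    rw [Real.log_sqrt hx.le]; ring
  rw [h]
  have := Real.log_le_sub_one_of_pos (Real.sqrt_pos.2 hx)
  linarith

lemma log_sq_le {x : ℝ} (hx : 1 ≤ x) : Real.log x ^ 2 ≤ 16 * √x := by
  have hx0 : 0 < x := by linarith
  have h : Real.log x = 2 * Real.log (√x) := by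
    rw [Real.log_sqrt hx0.le]; ring
  have h1 := log_le_two_sqrt (Real.sqrt_pos.2 hx0)
  have h2 : 0 ≤ Real.log (√x) := Real.log_nonneg (Real.one_le_sqrt.2 hx)
  have h3 : √(√x) ^ 2 = √x := Real.sq_sqrt (Real.sqrt_nonneg x)
  rw [h]
  have h4 : Real.log (√x) ^ 2 ≤ (2 * √(√x)) ^ 2 := pow_le_pow_left₀ h2 h1 2
  nlinarith

lemma card_primesBelow_le {N : ℕ} (hN : 3 ≤ N) :
    ((N.primesBelow).card : ℝ) ≤ 5 * (N / Real.log N) := by
  have hN1 : (1 : ℝ) < N := by exact_mod_cast (by omega : 1 < N)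
  have hN0 : (0 : ℝ) < N := by linarith
  have hlog : 0 < Real.log N := Real.log_pos hN1
  have h := Chebyshev.pi_le_log4_mul_div hN1
  rw [Nat.floor_natCast] at h
  have h1 : ((N.primesBelow).card : ℝ) ≤ Nat.primeCounting N := by
    have : (N.primesBelow).card ≤ Nat.primeCounting N := by
      rw [Nat.primesBelow_card_eq_primeCounting']
      rw [Nat.primeCounting]
      exact Nat.monotone_primeCounting' (by omega)
    exact_mod_cast this
  refine h1.trans (h.trans ?_)
  rw [Real.log_sqrt hN0.le]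
  have h2 : √(N : ℝ) ≤ 2 * (N / Real.log N) := by
    rw [← mul_div_assoc, le_div_iff₀ hlog]
    have h3 := log_le_two_sqrt hN0
    have h4 : √(N : ℝ) * √N = N := Real.mul_self_sqrt hN0.le
    nlinarith [Real.sqrt_nonneg (N : ℝ)]
  have h5 : Real.log 4 ≤ 3 / 2 := by
    have : Real.log 4 = 2 * Real.log 2 := by
      rw [show (4 : ℝ) = 2 ^ 2 by norm_num, Real.log_pow]; norm_num
    rw [this]
    linarith [Real.log_two_lt_d9]
  have h6 : Real.log 4 * N / (Real.log N / 2) = 2 * Real.log 4 * (N / Real.log N) := by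
    field_simp
  rw [h6]
  have h7 : 0 < (N : ℝ) / Real.log N := by positivity
  nlinarith

lemma Z_le {N : ℕ} (hN : 3 ≤ N) : Z N (1 / Real.log N) ≤ Real.exp (56 * (N / Real.log N)) := by
  classical
  have hN1 : (1 : ℝ) < N := by exact_mod_cast (by omega : 1 < N)
  have hN3 : (3 : ℝ) ≤ N := by exact_mod_cast hN
  have hN0 : (0 : ℝ) < N := by linarith
  have hlog : 0 < Real.log N := Real.log_pos hN1
  have hlog2 : 0 < Real.log 2 := Real.log_pos (by norm_num)
  have hlog2' : 2 / 3 < Real.log 2 := by linarith [Real.log_two_gt_d9]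
  -- each factor
  have hfac : ∀ p ∈ N.primesBelow, (1 - (p : ℝ) ^ (-(1 / Real.log N)))⁻¹ ≤
      4 * (if p ≤ Nat.sqrt N then Real.exp (3 * Real.log N) else 1) := by
    intro p hp
    have hp' := Nat.prime_of_mem_primesBelow hp
    have hpN := Nat.lt_of_mem_primesBelow hp
    have hp1 : (1 : ℝ) < p := by exact_mod_cast hp'.one_lt
    have hp2 : (2 : ℝ) ≤ p := by exact_mod_cast hp'.two_le
    have hpN' : (p : ℝ) ≤ N := by exact_mod_cast hpN.le
    have hlogp : 0 < Real.log p := Real.log_pos hp1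
    have hlogpN : Real.log p ≤ Real.log N := Real.log_le_log (by linarith) hpN'
    set u := Real.log p / Real.log N with hu
    have hu0 : 0 < u := div_pos hlogp hlog
    have hu1 : u ≤ 1 := (div_le_one hlog).2 hlogpN
    have h1 : (p : ℝ) ^ (-(1 / Real.log N)) = Real.exp (-u) := by
      rw [Real.rpow_def_of_pos (by linarith), hu]
      congr 1
      ring
    rw [h1]
    have h2 := one_sub_exp hu0.le hu1
    have h3 : (1 - Real.exp (-u))⁻¹ ≤ (u / 2)⁻¹ := inv_anti₀ (by positivity) h2
    refine h3.trans ?_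
    have h4 : (u / 2)⁻¹ = 2 * Real.log N / Real.log p := by
      rw [hu]
      field_simp
    rw [h4, div_le_iff₀ hlogp]
    split_ifs with h
    · have h5 : Real.log 2 ≤ Real.log p := Real.log_le_log (by norm_num) hp2
      have h6 : 3 * Real.log N + 1 ≤ Real.exp (3 * Real.log N) := Real.add_one_le_exp _
      nlinarith
    · have h5 : N < p * p := by
        rw [not_le] at h
        exact Nat.sqrt_lt.1 h
      have h6 : (N : ℝ) ≤ p * p := by exact_mod_cast h5.le
      have h7 : Real.log N ≤ 2 * Real.log p := by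
        calc Real.log N ≤ Real.log (p * p) := Real.log_le_log hN0 h6
          _ = _ := by rw [Real.log_mul (by linarith) (by linarith)]; ring
      linarith
  have hprod : Z N (1 / Real.log N) ≤
      4 ^ (N.primesBelow).card * Real.exp (3 * Real.log N) ^ (Nat.sqrt N) := by
    unfold Z
    calc ∏ p ∈ N.primesBelow, (1 - (p : ℝ) ^ (-(1 / Real.log N)))⁻¹
        ≤ ∏ p ∈ N.primesBelow, (4 * (if p ≤ Nat.sqrt N then Real.exp (3 * Real.log N) else 1)) := by
          refine prod_le_prod (fun p hp => ?_) hfac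
          have hp' := Nat.prime_of_mem_primesBelow hp
          have h1 : (1 : ℝ) < p := by exact_mod_cast hp'.one_lt
          have h2 : (p : ℝ) ^ (-(1 / Real.log N)) < 1 :=
            Real.rpow_lt_one_of_one_lt_of_neg h1 (by have : 0 < 1 / Real.log N := by positivity
                                                     linarith)
          exact inv_nonneg.2 (by linarith)
      _ = 4 ^ (N.primesBelow).card * Real.exp (3 * Real.log N) ^
            ((N.primesBelow).filter (fun p => p ≤ Nat.sqrt N)).card := by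
          rw [prod_mul_distrib, prod_const, ← prod_filter, prod_const]
      _ ≤ _ := by
          refine mul_le_mul_of_nonneg_left ?_ (by positivity)
          refine pow_le_pow_right₀ (Real.one_le_exp (by positivity)) ?_
          have : (N.primesBelow).filter (fun p => p ≤ Nat.sqrt N) ⊆ Finset.Icc 1 (Nat.sqrt N) := by
            intro p hp
            rw [mem_filter] at hp
            rw [mem_Icc]
            exact ⟨(Nat.prime_of_mem_primesBelow hp.1).one_le, hp.2⟩
          refine (card_le_card this).trans ?_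
          rw [Nat.card_Icc]
          omega
  refine hprod.trans ?_
  have h4 : (4 : ℝ) ^ (N.primesBelow).card = Real.exp (Real.log 4 * (N.primesBelow).card) := by
    rw [mul_comm, ← Real.log_pow, Real.exp_log (by positivity)]
  rw [h4, ← Real.exp_nat_mul, ← Real.exp_add]
  apply Real.exp_le_exp.2
  have h5 := card_primesBelow_le hN
  have h6 : Real.log 4 ≤ 3 / 2 := by
    have : Real.log 4 = 2 * Real.log 2 := by
      rw [show (4 : ℝ) = 2 ^ 2 by norm_num, Real.log_pow]; norm_num
    rw [this]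
    linarith [Real.log_two_lt_d9]
  have h60 : 0 < Real.log 4 := Real.log_pos (by norm_num)
  have h7 : (Nat.sqrt N : ℝ) ≤ √N := Real.nat_sqrt_le_real_sqrt
  have h8 : √(N : ℝ) * (3 * Real.log N) ≤ 48 * (N / Real.log N) := by
    rw [← mul_div_assoc, le_div_iff₀ hlog]
    have h9 := log_sq_le hN1.le
    have h10 : √(N : ℝ) * √N = N := Real.mul_self_sqrt hN0.le
    nlinarith [Real.sqrt_nonneg (N : ℝ)]
  have h11 : (Nat.sqrt N : ℝ) * (3 * Real.log N) ≤ √(N : ℝ) * (3 * Real.log N) :=
    mul_le_mul_of_nonneg_right h7 (by positivity)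
  have h12 : 0 < (N : ℝ) / Real.log N := by positivity
  have h13 : Real.log 4 * (N.primesBelow).card ≤ 3 / 2 * (5 * (N / Real.log N)) := by
    calc Real.log 4 * ((N.primesBelow).card : ℝ) ≤ Real.log 4 * (5 * (N / Real.log N)) :=
          mul_le_mul_of_nonneg_left h5 h60.le
      _ ≤ _ := mul_le_mul_of_nonneg_right h6 (by positivity)
  linarith

end Pool.Agent.K7.H57.ESSmooth
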