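import Mathlib
import Pool.Agent.K7.H57.ESSmooth

/-!
# A short interval with few smooth numbers
-/

set_option autoImplicit false

open Finset

namespace Pool.Agent.K7.H57.ESWindow

open Pool.Agent.K7.H57.ESCore (win mem_win)
open Pool.Agent.K7.H57.ESSmooth

/-- the number of smooth numbers in a dyadic interval -/
noncomputable def g (N i : ℕ) : ℝ := ((win N (2 ^ i) (2 ^ (i + 1))).card : ℝ)

lemma g_zero {N : ℕ} (hN : 3 ≤ N) : 1 ≤ g N 0 := by
  unfold g
  have : 2 ∈ win N (2 ^ 0) (2 ^ (0 + 1)) := by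
    rw [mem_win (by norm_num)]
    refine ⟨Nat.mem_smoothNumbers_of_lt (by norm_num) (by omega), by norm_num, by norm_num⟩
  have h : 0 < (win N (2 ^ 0) (2 ^ (0 + 1))).card := card_pos.2 ⟨_, this⟩
  exact_mod_cast h

lemma win_subset {N : ℕ} {x y x' y' : ℝ} (hx' : 0 ≤ x') (h1 : x' ≤ x) (h2 : y ≤ y') :
    win N x y ⊆ win N x' y' := by
  intro a ha
  rw [mem_win (hx'.trans h1)] at ha
  rw [mem_win hx']
  exact ⟨ha.1, by linarith [ha.2.1], by linarith [ha.2.2]⟩

/-- There is a dyadic interval `(2 ^ i, 2 ^ (i + 1)]` such that the number of smooth numbers in the later dyadic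
intervals is controlled. -/
theorem exists_max {N : ℕ} (hN : 3 ≤ N) : ∃ i : ℕ, 1 ≤ g N i ∧
    (∀ k : ℕ, 2 ^ k ≤ N → g N (i + k) ≤ 8 * g N i) ∧
    Real.log 2 * i ≤ Real.log N * (2 + 56 * (N / Real.log N) / 1) + 1 := by
  have hN1 : (1 : ℝ) < N := by exact_mod_cast (by omega : 1 < N)
  have hN3 : (3 : ℝ) ≤ N := by exact_mod_cast hN
  have hN0 : (0 : ℝ) < N := by linarith
  have hlog : 0 < Real.log N := Real.log_pos hN1
  have hlog2 : 0 < Real.log 2 := Real.log_pos (by norm_num)
  have hlog1 : 1 < Real.log N := by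
    rw [Real.lt_log_iff_exp_lt hN0]
    linarith [Real.exp_one_lt_d9]
  set s : ℝ := 1 / Real.log N with hs
  have hs0 : 0 < s := by positivity
  set z : ℝ := Z N s with hz
  have hz1 : 1 ≤ z := Z_pos N s hs0
  have hlogz : 0 ≤ Real.log z := Real.log_nonneg hz1
  set t : ℝ := s * Real.log 2 with ht
  have ht0 : 0 < t := by positivity
  -- Rankin
  have hrank : ∀ i : ℕ, g N i ≤ Real.exp (t * (i + 1)) * z := by
    intro i
    have h1 := rankin N s hs0 (2 ^ (i + 1)) (by positivity)
    have h2 : g N i ≤ ((win N 0 (2 ^ (i + 1))).card : ℝ) := by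
      unfold g
      exact_mod_cast card_le_card (win_subset le_rfl (by positivity) le_rfl)
    refine h2.trans (h1.trans (le_of_eq ?_))
    congr 1
    rw [Real.rpow_def_of_pos (by positivity), Real.log_pow]
    congr 1
    rw [ht]
    push_cast
    ring
  set G : ℕ → ℝ := fun i => g N i * Real.exp (-(2 * t * i)) with hG
  have hG0 : 1 ≤ G 0 := by
    simp only [hG]
    simpa using g_zero hN
  set J : ℕ := ⌈1 + Real.log z / t⌉₊ with hJ
  have hJ1 : 1 + Real.log z / t ≤ J := Nat.le_ceil _
  have hJ2 : (J : ℝ) < 1 + Real.log z / t + 1 := Nat.ceil_lt_add_one (by positivity)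
  have hGJ : ∀ i : ℕ, J ≤ i → G i ≤ 1 := by
    intro i hi
    have hi' : (J : ℝ) ≤ i := by exact_mod_cast hi
    simp only [hG]
    calc g N i * Real.exp (-(2 * t * i)) ≤ (Real.exp (t * (i + 1)) * z) * Real.exp (-(2 * t * i)) :=
          mul_le_mul_of_nonneg_right (hrank i) (Real.exp_pos _).le
      _ = Real.exp (Real.log z - t * (i - 1)) := by
          have : z = Real.exp (Real.log z) := (Real.exp_log (by linarith)).symm
          conv_lhs => rw [this]
          rw [← Real.exp_add, ← Real.exp_add]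
          congr 1
          ring
      _ ≤ Real.exp 0 := by
          apply Real.exp_le_exp.2
          have h1 : Real.log z / t ≤ i - 1 := by linarith
          rw [div_le_iff₀ ht0] at h1
          linarith
      _ = 1 := Real.exp_zero
  obtain ⟨i, hi, himax⟩ := exists_max_image (Finset.range (J + 1)) G ⟨0, by simp⟩
  have hGmax : ∀ j, G j ≤ G i := by
    intro j
    rcases Nat.lt_or_ge j (J + 1) with h | h
    · exact himax j (mem_range.2 h)
    · exact (hGJ j (by omega)).trans (hG0.trans (himax 0 (by simp)))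
  refine ⟨i, ?_, ?_, ?_⟩
  · have h1 : 1 ≤ G i := hG0.trans (himax 0 (by simp))
    simp only [hG] at h1
    have h2 : Real.exp (-(2 * t * i)) ≤ 1 := Real.exp_le_one_iff.2 (by
      have : 0 ≤ 2 * t * i := by positivity
      linarith)
    have h3 : 0 ≤ g N i := by unfold g; positivity
    nlinarith [Real.exp_pos (-(2 * t * i))]
  · intro k hk
    have h1 := hGmax (i + k)
    simp only [hG] at h1
    have h2 : g N (i + k) ≤ g N i * Real.exp (2 * t * k) := by
      have h3 : Real.exp (-(2 * t * (i : ℝ))) = Real.exp (2 * t * k) * Real.exp (-(2 * t * ((i + k : ℕ) : ℝ))) := by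
        rw [← Real.exp_add]
        congr 1
        push_cast
        ring
      have h1' : g N (i + k) * Real.exp (-(2 * t * ((i + k : ℕ) : ℝ))) ≤
          (g N i * Real.exp (2 * t * k)) * Real.exp (-(2 * t * ((i + k : ℕ) : ℝ))) := by
        refine h1.trans (le_of_eq ?_)
        rw [h3]
        ring
      exact le_of_mul_le_mul_right h1' (Real.exp_pos _)
    refine h2.trans ?_
    rw [mul_comm]
    refine mul_le_mul_of_nonneg_right ?_ (by unfold g; positivity)
    have h4 : 2 * t * k ≤ 2 := by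
      have h5 : (k : ℝ) * Real.log 2 ≤ Real.log N := by
        rw [← Real.log_pow]
        apply Real.log_le_log (by positivity)
        exact_mod_cast hk
      rw [ht, hs]
      have : 2 * (1 / Real.log N * Real.log 2) * k = 2 * ((k * Real.log 2) / Real.log N) := by
        field_simp
      rw [this]
      have : (k * Real.log 2) / Real.log N ≤ 1 := (div_le_one hlog).2 h5
      linarith
    calc Real.exp (2 * t * k) ≤ Real.exp 2 := Real.exp_le_exp.2 h4
      _ ≤ 8 := by
        have h6 : Real.exp 2 = Real.exp 1 * Real.exp 1 := by rw [← Real.exp_add]; norm_num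
        rw [h6]
        have := Real.exp_one_lt_d9
        nlinarith [Real.exp_pos 1]
  · have h1 : i ≤ J := by
      have := mem_range.1 hi
      omega
    have h1' : (i : ℝ) ≤ J := by exact_mod_cast h1
    have h2 : Real.log z ≤ 56 * (N / Real.log N) := by
      rw [Real.log_le_iff_le_exp (by linarith)]
      exact Z_le hN
    have h3 : Real.log 2 * i ≤ Real.log 2 * (2 + Real.log z / t) :=
      mul_le_mul_of_nonneg_left (by linarith) hlog2.le
    have h4 : Real.log 2 * (2 + Real.log z / t) = 2 * Real.log 2 + Real.log N * Real.log z := by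
      rw [ht, hs]
      field_simp
    have h5 : Real.log N * Real.log z ≤ Real.log N * (56 * (N / Real.log N)) :=
      mul_le_mul_of_nonneg_left h2 hlog.le
    have h6 : Real.log 2 ≤ 1 := by linarith [Real.log_two_lt_d9]
    rw [div_one]
    nlinarith

/-- **Main lemma on smooth numbers.** For `K = 2 ^ κ` with `2 ^ (κ + 1) ≤ N` and every `U ≥ 1` there is `m ≥ 2` such that
the interval `(K m, (K + c) m]`, `c = K / (2 U)`, contains at most `8 / U` times the number of the smooth numbers in
`(m / 4, m]` that are at least `2`; and `m` is not too large. -/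
theorem exists_window {N : ℕ} (hN : 3 ≤ N) (κ : ℕ) (hκ : 2 ^ (κ + 1) ≤ N) (U : ℕ) (hU : 1 ≤ U) :
    ∃ m : ℝ, 2 ≤ m ∧ 0 < ((win N (m / 4) m).filter (fun a => 2 ≤ a)).card ∧
      U * ((win N (2 ^ κ * m) ((2 ^ κ + 2 ^ κ / (2 * U)) * m)).card : ℝ) ≤
        8 * (((win N (m / 4) m).filter (fun a => 2 ≤ a)).card : ℝ) ∧
      Real.log m ≤ 60 * N + 10 * Real.log N := by
  classical
  obtain ⟨i, hi1, hik, hilog⟩ := exists_max hN
  have hN1 : (1 : ℝ) < N := by exact_mod_cast (by omega : 1 < N)
  have hN3 : (3 : ℝ) ≤ N := by exact_mod_cast hN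
  have hN0 : (0 : ℝ) < N := by linarith
  have hlog : 0 < Real.log N := Real.log_pos hN1
  have hlog1 : 1 < Real.log N := by
    rw [Real.lt_log_iff_exp_lt hN0]
    linarith [Real.exp_one_lt_d9]
  have hU0 : (0 : ℝ) < U := by exact_mod_cast hU
  set ρ : ℝ := 1 + 1 / (2 * U) with hρ
  have hρ1 : 1 < ρ := by
    have : 0 < 1 / (2 * (U : ℝ)) := by positivity
    linarith
  -- powers of `ρ`
  have hpow : ∀ j : ℕ, j ≤ U → ρ ^ j ≤ 2 := by
    intro j hj
    have h1 : ρ ≤ Real.exp (1 / (2 * U)) := by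
      rw [hρ]
      linarith [Real.add_one_le_exp (1 / (2 * (U : ℝ)))]
    calc ρ ^ j ≤ Real.exp (1 / (2 * U)) ^ j := pow_le_pow_left₀ (by linarith) h1 j
      _ = Real.exp (j / (2 * U)) := by rw [← Real.exp_nat_mul]; congr 1; ring
      _ ≤ Real.exp (1 / 2) := by
          apply Real.exp_le_exp.2
          rw [div_le_div_iff₀ (by positivity) (by norm_num)]
          have : (j : ℝ) ≤ U := by exact_mod_cast hj
          linarith
      _ ≤ 2 := by
          have h3 : Real.exp (1 / 2) * Real.exp (1 / 2) = Real.exp 1 := by rw [← Real.exp_add]; norm_num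
          have := Real.exp_one_lt_d9
          nlinarith [Real.exp_pos (1 / 2)]
  set mm : ℕ → ℝ := fun j => 2 ^ (i + 1) * ρ ^ j with hmm
  have hmm1 : ∀ j, 2 ^ (i + 1) ≤ mm j := by
    intro j
    simp only [hmm]
    have : (1 : ℝ) ≤ ρ ^ j := one_le_pow₀ hρ1.le
    have h2 : (0 : ℝ) < 2 ^ (i + 1) := by positivity
    nlinarith
  have hstep : ∀ j, (2 ^ κ + 2 ^ κ / (2 * U)) * mm j = 2 ^ κ * mm (j + 1) := by
    intro j
    simp only [hmm, hρ]
    rw [pow_succ ((1 : ℝ) + 1 / (2 * U)) j]
    field_simp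
  -- disjoint windows
  have hsum : ∑ j ∈ Finset.range U, ((win N (2 ^ κ * mm j) ((2 ^ κ + 2 ^ κ / (2 * U)) * mm j)).card : ℝ)
      ≤ g N (i + (κ + 1)) := by
    have hdisj : ((Finset.range U : Finset ℕ) : Set ℕ).PairwiseDisjoint
        (fun j => win N (2 ^ κ * mm j) ((2 ^ κ + 2 ^ κ / (2 * U)) * mm j)) := by
      have key : ∀ j k : ℕ, j < k → Disjoint (win N (2 ^ κ * mm j) ((2 ^ κ + 2 ^ κ / (2 * U)) * mm j))
          (win N (2 ^ κ * mm k) ((2 ^ κ + 2 ^ κ / (2 * U)) * mm k)) := by
        intro j k hjk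
        rw [Finset.disjoint_left]
        intro a ha hb
        have hp1 : (0 : ℝ) ≤ 2 ^ κ * mm j := by
          have := hmm1 j
          have h2 : (0 : ℝ) < 2 ^ (i + 1) := by positivity
          positivity
        have hp2 : (0 : ℝ) ≤ 2 ^ κ * mm k := by
          have := hmm1 k
          have h2 : (0 : ℝ) < 2 ^ (i + 1) := by positivity
          positivity
        rw [mem_win hp1] at ha
        rw [mem_win hp2] at hb
        rw [hstep j] at ha
        have h3 : mm (j + 1) ≤ mm k := by
          simp only [hmm]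
          exact mul_le_mul_of_nonneg_left (pow_le_pow_right₀ hρ1.le (by omega)) (by positivity)
        have h4 : (2 : ℝ) ^ κ * mm (j + 1) ≤ 2 ^ κ * mm k := mul_le_mul_of_nonneg_left h3 (by positivity)
        linarith [ha.2.2, hb.2.1]
      intro j _ k _ hjk
      rcases Nat.lt_or_gt_of_ne hjk with h | h
      · exact key j k h
      · exact (key k j h).symm
    have h1 := card_biUnion hdisj
    have h2 : (Finset.range U).biUnion (fun j => win N (2 ^ κ * mm j) ((2 ^ κ + 2 ^ κ / (2 * U)) * mm j)) ⊆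
        win N (2 ^ (i + (κ + 1))) (2 ^ (i + (κ + 1) + 1)) := by
      intro a ha
      rw [mem_biUnion] at ha
      obtain ⟨j, hj, ha⟩ := ha
      refine win_subset (by positivity) ?_ ?_ ha
      · calc (2 : ℝ) ^ (i + (κ + 1)) = 2 ^ κ * 2 ^ (i + 1) := by ring
          _ ≤ 2 ^ κ * mm j := mul_le_mul_of_nonneg_left (hmm1 j) (by positivity)
      · rw [hstep j]
        have h3 : mm (j + 1) ≤ 2 ^ (i + 1) * 2 := by
          simp only [hmm]
          exact mul_le_mul_of_nonneg_left (hpow (j + 1) (by have := mem_range.1 hj; omega)) (by positivity)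
        calc (2 : ℝ) ^ κ * mm (j + 1) ≤ 2 ^ κ * (2 ^ (i + 1) * 2) := mul_le_mul_of_nonneg_left h3 (by positivity)
          _ = _ := by ring
    have h3 := card_le_card h2
    rw [h1] at h3
    unfold g
    exact_mod_cast h3
  obtain ⟨j, hj, hjle⟩ : ∃ j ∈ Finset.range U,
      U * ((win N (2 ^ κ * mm j) ((2 ^ κ + 2 ^ κ / (2 * U)) * mm j)).card : ℝ) ≤ 8 * g N i := by
    by_contra hcon
    push Not at hcon
    have h1 : ∑ _j ∈ Finset.range U, 8 * g N i < ∑ j ∈ Finset.range U,
        U * ((win N (2 ^ κ * mm j) ((2 ^ κ + 2 ^ κ / (2 * U)) * mm j)).card : ℝ) :=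
      sum_lt_sum_of_nonempty ⟨0, mem_range.2 (by omega)⟩ hcon
    rw [sum_const, card_range, nsmul_eq_mul, ← mul_sum] at h1
    have h2 := hik (κ + 1) hκ
    have h3 : (U : ℝ) * ∑ j ∈ Finset.range U, ((win N (2 ^ κ * mm j) ((2 ^ κ + 2 ^ κ / (2 * U)) * mm j)).card : ℝ)
        ≤ U * (8 * g N i) := mul_le_mul_of_nonneg_left (hsum.trans h2) hU0.le
    linarith
  have hjU : j ≤ U := by have := mem_range.1 hj; omega
  have hmj2 : mm j ≤ 4 * 2 ^ i := by
    simp only [hmm]
    calc (2 : ℝ) ^ (i + 1) * ρ ^ j ≤ 2 ^ (i + 1) * 2 := mul_le_mul_of_nonneg_left (hpow j hjU) (by positivity)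
      _ = _ := by ring
  have hsub : win N (2 ^ i) (2 ^ (i + 1)) ⊆ (win N (mm j / 4) (mm j)).filter (fun a => 2 ≤ a) := by
    intro a ha
    rw [mem_filter]
    refine ⟨win_subset ?_ ?_ (hmm1 j) ha, ?_⟩
    · have := hmm1 j
      have h2 : (0 : ℝ) < 2 ^ (i + 1) := by positivity
      positivity
    · linarith
    · rw [mem_win (by positivity)] at ha
      have h1 : (1 : ℝ) ≤ 2 ^ i := one_le_pow₀ (by norm_num)
      have h2 : (1 : ℝ) < a := by linarith [ha.2.1]
      have h3 : 1 < a := by exact_mod_cast h2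
      omega
  have hcard : g N i ≤ (((win N (mm j / 4) (mm j)).filter (fun a => 2 ≤ a)).card : ℝ) := by
    unfold g
    exact_mod_cast card_le_card hsub
  refine ⟨mm j, ?_, ?_, ?_, ?_⟩
  · have h1 : (2 : ℝ) ≤ 2 ^ (i + 1) := by
      have : (1 : ℝ) ≤ 2 ^ i := one_le_pow₀ (by norm_num)
      rw [pow_succ]; linarith
    exact h1.trans (hmm1 j)
  · have : (1 : ℝ) ≤ (((win N (mm j / 4) (mm j)).filter (fun a => 2 ≤ a)).card : ℝ) := hi1.trans hcard
    exact_mod_cast this
  · exact hjle.trans (by linarith)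
  · have h1 : 0 < mm j := by
      have := hmm1 j
      have h2 : (0 : ℝ) < 2 ^ (i + 1) := by positivity
      linarith
    have h2 : Real.log (mm j) ≤ Real.log 4 + i * Real.log 2 := by
      calc Real.log (mm j) ≤ Real.log (4 * 2 ^ i) := Real.log_le_log h1 hmj2
        _ = _ := by rw [Real.log_mul (by norm_num) (by positivity), Real.log_pow]
    have h3 : Real.log 4 ≤ 3 / 2 := by
      have : Real.log 4 = 2 * Real.log 2 := by
        rw [show (4 : ℝ) = 2 ^ 2 by norm_num, Real.log_pow]; norm_num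
      rw [this]
      linarith [Real.log_two_lt_d9]
    have h4 : Real.log N * (2 + 56 * (N / Real.log N) / 1) + 1 = 2 * Real.log N + 56 * N + 1 := by
      field_simp
    rw [h4] at hilog
    linarith

end Pool.Agent.K7.H57.ESWindow
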