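import Pool.Agent.K7.H72.IP.Stm

set_option autoImplicit false

namespace Pool.Agent.K7.H57.IP

open SimpleGraph Pool.Agent.K7.H72.IP

lemma contra {t n m : ℕ} (G : SimpleGraph (Fin n)) (hG : NoK t G) (x : Fin m → Fin n) (hx : Function.Injective x)
    (F : Finset (Fin n)) (I : Finset (Fin m)) (hF : t ≤ F.card) (hI : t ≤ I.card)
    (h : ∀ a ∈ F, ∀ i ∈ I, G.Adj a (x i)) : False := by
  obtain ⟨F', hF', hFc⟩ := Finset.exists_subset_card_eq hF
  obtain ⟨I', hI', hIc⟩ := Finset.exists_subset_card_eq hI
  apply hG
  have hadj : ∀ i j, G.Adj (F'.orderEmbOfFin hFc i) (x (I'.orderEmbOfFin hIc j)) := fun i j =>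
    h _ (hF' (Finset.orderEmbOfFin_mem _ _ _)) _ (hI' (Finset.orderEmbOfFin_mem _ _ _))
  refine ⟨⟨⟨Sum.elim (fun i => F'.orderEmbOfFin hFc i) (fun j => x (I'.orderEmbOfFin hIc j)), ?_⟩, ?_⟩⟩
  · intro a b hab
    rcases a with a | a <;> rcases b with b | b
    · simp [completeBipartiteGraph] at hab
    · exact hadj a b
    · exact (hadj b a).symm
    · simp [completeBipartiteGraph] at hab
  · intro a b hab
    rcases a with a | a <;> rcases b with b | b
    · have h1 : F'.orderEmbOfFin hFc a = F'.orderEmbOfFin hFc b := hab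
      rw [(F'.orderEmbOfFin hFc).injective h1]
    · exact absurd hab (hadj a b).ne
    · exact absurd hab (hadj b a).ne'
    · have h1 : x (I'.orderEmbOfFin hIc a) = x (I'.orderEmbOfFin hIc b) := hab
      rw [(I'.orderEmbOfFin hIc).injective (hx h1)]

/-- Job TOUCH -/
theorem touch : StTouch := by
  classical
  intro t m ht n G hG x hx
  set I : Fin n → Finset (Fin m) := fun a => Finset.univ.filter fun i => a = x i ∨ G.Adj a (x i) with hI
  set X : Finset (Fin n) := Finset.univ.filter fun a => t ≤ (I a).card with hX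
  have hXc : X.card ≤ m + 2 ^ m * t := by
    have h2 : (X \ Finset.univ.image x).card ≤ 2 ^ m * t := by
      by_contra hcon
      push Not at hcon
      obtain ⟨J, _, hJ⟩ := Finset.exists_lt_card_fiber_of_mul_lt_card_of_maps_to
        (s := X \ Finset.univ.image x) (t := (Finset.univ : Finset (Finset (Fin m)))) (f := I) (n := t)
        (fun _ _ => Finset.mem_univ _) (by simpa using hcon)
      set F := (X \ Finset.univ.image x).filter fun a => I a = J with hF
      have hne : F.Nonempty := Finset.card_pos.1 (lt_of_le_of_lt (Nat.zero_le _) hJ)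
      obtain ⟨a0, ha0⟩ := hne
      have hJt : t ≤ J.card := by
        rw [hF, Finset.mem_filter, Finset.mem_sdiff, hX, Finset.mem_filter] at ha0
        rw [← ha0.2]
        exact ha0.1.1.2
      refine contra G hG x hx F J hJ.le hJt ?_
      intro a ha i hi
      rw [hF, Finset.mem_filter, Finset.mem_sdiff] at ha
      rw [← ha.2, hI, Finset.mem_filter] at hi
      rcases hi.2 with h3 | h3
      · exact absurd (Finset.mem_image.2 ⟨i, Finset.mem_univ _, h3.symm⟩) ha.1.2
      · exact h3
    have h3 : (Finset.univ.image x).card ≤ m := Finset.card_image_le.trans (by simp)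
    have h4 : X.card ≤ (X \ Finset.univ.image x).card + (Finset.univ.image x).card := by
      calc X.card ≤ ((X \ Finset.univ.image x) ∪ Finset.univ.image x).card := by
            apply Finset.card_le_card
            intro a ha
            by_cases h : a ∈ Finset.univ.image x
            · exact Finset.mem_union_right _ h
            · exact Finset.mem_union_left _ (Finset.mem_sdiff.2 ⟨ha, h⟩)
        _ ≤ _ := Finset.card_union_le _ _
    omega
  have hsub : {e : Sym2 (Fin n) | e ∈ G.edgeSet ∧
      2 * t ≤ {i : Fin m | ∃ a ∈ e, a = x i ∨ G.Adj a (x i)}.ncard} ⊆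
      (((X ×ˢ (Finset.univ : Finset (Fin n))).image fun p => s(p.1, p.2) : Finset (Sym2 (Fin n))) :
        Set (Sym2 (Fin n))) := by
    rintro e ⟨he, h2⟩
    induction e using Sym2.ind with
    | _ a b =>
      have h3 : {i : Fin m | ∃ c ∈ s(a, b), c = x i ∨ G.Adj c (x i)} = ((I a ∪ I b : Finset (Fin m)) : Set (Fin m)) := by
        ext i
        simp [hI]
      rw [h3, Set.ncard_coe_finset] at h2
      have h4 := Finset.card_union_le (I a) (I b)
      rw [Finset.coe_image]
      rcases (by omega : t ≤ (I a).card ∨ t ≤ (I b).card) with h5 | h5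
      · refine ⟨(a, b), ?_, rfl⟩
        simp [hX, h5]
      · refine ⟨(b, a), ?_, Sym2.eq_swap⟩
        simp [hX, h5]
  calc _ ≤ ((((X ×ˢ (Finset.univ : Finset (Fin n))).image fun p => s(p.1, p.2) : Finset (Sym2 (Fin n))) :
        Set (Sym2 (Fin n)))).ncard := Set.ncard_le_ncard hsub (Finset.finite_toSet _)
    _ = ((X ×ˢ (Finset.univ : Finset (Fin n))).image fun p => s(p.1, p.2)).card := Set.ncard_coe_finset _
    _ ≤ (X ×ˢ (Finset.univ : Finset (Fin n))).card := Finset.card_image_le
    _ = X.card * n := by rw [Finset.card_product, Finset.card_univ, Fintype.card_fin]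
    _ ≤ _ := Nat.mul_le_mul_right _ hXc

end Pool.Agent.K7.H57.IP
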